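import Pool.Agent.Q178.VC.GaussB

/-!
# JOB GSS: the size of the vector at the resonance
-/

set_option autoImplicit false

open Finset

namespace Pool.Agent.Q178.VC

open Pool.Agent.Q167.VC

theorem norm_ofReal_sin_le (x : ℝ) : ‖(Real.sin x : ℂ)‖ ≤ 1 := by
  rw [Complex.norm_real, Real.norm_eq_abs]
  exact Real.abs_sin_le_one x

theorem norm_ofReal_cos_le (x : ℝ) : ‖(Real.cos x : ℂ)‖ ≤ 1 := by
  rw [Complex.norm_real, Real.norm_eq_abs]
  exact Real.abs_cos_le_one x

theorem gss (h1 : S_init) (h2 : S_gauss) (h3 : S_abl) : S_size := by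
  intro p hp
  obtain ⟨C, hC⟩ := h3 p hp
  have hp1 : 1 ≤ p := by omega
  have hp0 : (0 : ℝ) < p := by exact_mod_cast hp1
  have hp1' : (1 : ℝ) ≤ p := by exact_mod_cast hp1
  have hpC : (p : ℂ) ≠ 0 := by exact_mod_cast hp0.ne'
  obtain ⟨D, hD⟩ : ∃ D : ℝ, D = Real.sqrt (2 * p) := ⟨_, rfl⟩
  have hD0 : 0 < D := by rw [hD]; positivity
  obtain ⟨c1, hc1⟩ : ∃ c1 : ℝ, c1 = |C| + p * D := ⟨_, rfl⟩
  have hc10 : 0 < c1 := by rw [hc1]; positivity
  -- the estimates for one N
  have key : ∀ N : ℕ, 1 ≤ N → (∀ y : ℤ, ‖GZ N p y‖ ≤ D * Real.sqrt N) ∧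
      (∀ j : ℕ, 1 ≤ j → j < p → ‖AA N p j‖ ≤ 2 * c1 * (N * Real.sqrt N)) := by
    intro N hN
    have hN0 : (0 : ℝ) < N := by exact_mod_cast hN
    have hs1 : 1 ≤ Real.sqrt N := by
      rw [Real.one_le_sqrt]
      exact_mod_cast hN
    have hG : ∀ y : ℤ, ‖GZ N p y‖ ≤ D * Real.sqrt N := by
      intro y
      rw [hD, ← Real.sqrt_mul (by positivity)]
      exact Real.le_sqrt_of_sq_le ((h2 N p hN hp1).2 y)
    refine ⟨hG, ?_⟩
    have hK : ∀ m : ℕ, 1 ≤ m → m < p →
        ‖∑ j ∈ Ico 1 p, (Real.sin (Real.pi * m * j / p) : ℂ) * AA N p j‖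
          ≤ c1 * (N * Real.sqrt N) := by
      intro m hm hm2
      have h4 := (hC N hN).2 m hm hm2
      have h5 : ‖Complex.I * N * (((p : ℂ) - m) / (2 * p))
          * ∑ j ∈ range (2 * p), (Real.cos (Real.pi * m * ((j : ℝ) - p + 1) / p) : ℂ)
            * GZ N p ((j : ℤ) - p + 1)‖ ≤ N * (p * D * Real.sqrt N) := by
        rw [norm_mul, norm_mul, norm_mul, Complex.norm_I, one_mul, Complex.norm_natCast]
        have h6 : ‖((p : ℂ) - m) / (2 * p)‖ ≤ 1 / 2 := by
          have h7 : ((p : ℂ) - m) / (2 * p) = ((((p : ℝ) - m) / (2 * p) : ℝ) : ℂ) := by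
            push_cast
            rfl
          rw [h7, Complex.norm_real, Real.norm_eq_abs, abs_of_nonneg, div_le_div_iff₀
            (by positivity) (by norm_num)]
          · have : (0 : ℝ) ≤ m := Nat.cast_nonneg m
            linarith
          · apply div_nonneg _ (by positivity)
            have : (m : ℝ) ≤ p := by exact_mod_cast hm2.le
            linarith
        have h8 : ‖∑ j ∈ range (2 * p), (Real.cos (Real.pi * m * ((j : ℝ) - p + 1) / p) : ℂ)
            * GZ N p ((j : ℤ) - p + 1)‖ ≤ 2 * p * (D * Real.sqrt N) := by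
          refine (norm_sum_le _ _).trans ?_
          have h9 : ∀ j ∈ range (2 * p), ‖(Real.cos (Real.pi * m * ((j : ℝ) - p + 1) / p) : ℂ)
            * GZ N p ((j : ℤ) - p + 1)‖ ≤ D * Real.sqrt N := by
            intro j _
            rw [norm_mul]
            calc _ ≤ 1 * (D * Real.sqrt N) :=
                  mul_le_mul (norm_ofReal_cos_le _) (hG _) (norm_nonneg _) zero_le_one
              _ = D * Real.sqrt N := one_mul _
          refine (Finset.sum_le_sum h9).trans ?_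
          rw [Finset.sum_const, Finset.card_range, nsmul_eq_mul]
          push_cast
          exact le_rfl
        calc (N : ℝ) * ‖((p : ℂ) - m) / (2 * p)‖ * ‖∑ j ∈ range (2 * p),
              (Real.cos (Real.pi * m * ((j : ℝ) - p + 1) / p) : ℂ) * GZ N p ((j : ℤ) - p + 1)‖
            ≤ (N : ℝ) * (1 / 2) * (2 * p * (D * Real.sqrt N)) := by
              refine mul_le_mul (mul_le_mul_of_nonneg_left h6 hN0.le) h8 (norm_nonneg _)
                (by positivity)
          _ = N * (p * D * Real.sqrt N) := by ring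
      have h10 := norm_sub_norm_le (∑ j ∈ Ico 1 p, (Real.sin (Real.pi * m * j / p) : ℂ)
        * AA N p j) (Complex.I * N * (((p : ℂ) - m) / (2 * p))
          * ∑ j ∈ range (2 * p), (Real.cos (Real.pi * m * ((j : ℝ) - p + 1) / p) : ℂ)
            * GZ N p ((j : ℤ) - p + 1))
      have h11 : C * N ≤ |C| * (N * Real.sqrt N) := by
        have : (N : ℝ) ≤ N * Real.sqrt N := by nlinarith
        calc C * N ≤ |C| * N := mul_le_mul_of_nonneg_right (le_abs_self C) hN0.le
          _ ≤ |C| * (N * Real.sqrt N) := mul_le_mul_of_nonneg_left this (abs_nonneg C)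
      have h12 : c1 * (N * Real.sqrt N)
          = |C| * (N * Real.sqrt N) + N * (p * D * Real.sqrt N) := by rw [hc1]; ring
      rw [h12]
      linarith
    intro j hj hj2
    have h13 := sine_inv p hp1 (AA N p) j hj hj2
    have h14 : (p : ℝ) / 2 * ‖AA N p j‖ ≤ p * (c1 * (N * Real.sqrt N)) := by
      have h15 : (p : ℝ) / 2 * ‖AA N p j‖ = ‖(p : ℂ) / 2 * AA N p j‖ := by
        rw [norm_mul, norm_div, Complex.norm_natCast]
        norm_num
      rw [h15, ← h13]
      refine (norm_sum_le _ _).trans ?_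
      have h16 : ∀ m ∈ Ico 1 p, ‖(Real.sin (Real.pi * m * j / p) : ℂ)
          * ∑ k ∈ Ico 1 p, (Real.sin (Real.pi * m * k / p) : ℂ) * AA N p k‖
          ≤ c1 * (N * Real.sqrt N) := by
        intro m hm
        rw [Finset.mem_Ico] at hm
        rw [norm_mul]
        calc _ ≤ 1 * (c1 * (N * Real.sqrt N)) :=
              mul_le_mul (norm_ofReal_sin_le _) (hK m hm.1 hm.2) (norm_nonneg _) zero_le_one
          _ = c1 * (N * Real.sqrt N) := one_mul _
      refine (Finset.sum_le_sum h16).trans ?_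
      rw [Finset.sum_const, Nat.card_Ico, nsmul_eq_mul]
      refine mul_le_mul_of_nonneg_right ?_ (by positivity)
      have : ((p - 1 : ℕ) : ℝ) ≤ p := by exact_mod_cast Nat.sub_le p 1
      exact this
    have h17 : (p : ℝ) * ‖AA N p j‖ ≤ p * (2 * c1 * (N * Real.sqrt N)) := by linarith
    exact le_of_mul_le_mul_left h17 hp0
  -- the bounds for B
  obtain ⟨c2, hc2⟩ : ∃ c2 : ℝ, c2 = p * (2 * c1) + p * D := ⟨_, rfl⟩
  obtain ⟨c3, hc3⟩ : ∃ c3 : ℝ, c3 = p * |C| + p * D := ⟨_, rfl⟩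
  have hc20 : 0 < c2 := by rw [hc2]; positivity
  have hc30 : 0 < c3 := by rw [hc3]; positivity
  have hBp : ∀ N : ℕ, 1 ≤ N → ‖Bf (rt N) p p (N - 1)‖ ≤ c3 := by
    intro N hN
    have hN0 : (0 : ℝ) < N := by exact_mod_cast hN
    have hN1 : (1 : ℝ) ≤ N := by exact_mod_cast hN
    have h4 := h1 N p p hN
    have h5 : (N : ℝ) * ‖Bf (rt N) p p (N - 1)‖ = ‖p * AA N p p - p * GZ N p (p : ℤ)‖ := by
      rw [← h4, norm_mul, Complex.norm_natCast]
    have h6 : ‖(p : ℂ) * AA N p p - p * GZ N p (p : ℤ)‖ ≤ p * (|C| * N) + p * (D * N) := by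
      refine (norm_sub_le _ _).trans ?_
      rw [norm_mul, norm_mul, Complex.norm_natCast]
      refine add_le_add (mul_le_mul_of_nonneg_left ?_ hp0.le)
        (mul_le_mul_of_nonneg_left ?_ hp0.le)
      · exact ((hC N hN).1).trans (mul_le_mul_of_nonneg_right (le_abs_self C) hN0.le)
      · refine ((key N hN).1 p).trans (mul_le_mul_of_nonneg_left ?_ hD0.le)
        rw [Real.sqrt_le_left hN0.le]
        nlinarith
    rw [← h5] at h6
    have h7 : (N : ℝ) * ‖Bf (rt N) p p (N - 1)‖ ≤ N * c3 := by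
      rw [hc3]
      linarith
    exact le_of_mul_le_mul_left h7 hN0
  have hB : ∀ N : ℕ, 1 ≤ N → ∀ j : ℕ, j ≤ p →
      ‖Bf (rt N) p j (N - 1)‖ ≤ (c2 + c3) * Real.sqrt N := by
    intro N hN j hj
    have hN0 : (0 : ℝ) < N := by exact_mod_cast hN
    have hs1 : 1 ≤ Real.sqrt N := by
      rw [Real.one_le_sqrt]
      exact_mod_cast hN
    rcases Nat.eq_zero_or_pos j with rfl | hj0
    · simp only [Bf, norm_zero]
      positivity
    · rcases Nat.lt_or_ge j p with hjp | hjp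
      · have h4 := h1 N p j hN
        have h5 : (N : ℝ) * ‖Bf (rt N) p j (N - 1)‖ = ‖p * AA N p j - j * GZ N p (j : ℤ)‖ := by
          rw [← h4, norm_mul, Complex.norm_natCast]
        have h6 : ‖(p : ℂ) * AA N p j - j * GZ N p (j : ℤ)‖
            ≤ p * (2 * c1 * (N * Real.sqrt N)) + p * (D * (N * Real.sqrt N)) := by
          refine (norm_sub_le _ _).trans ?_
          rw [norm_mul, norm_mul, Complex.norm_natCast, Complex.norm_natCast]
          refine add_le_add (mul_le_mul_of_nonneg_left ((key N hN).2 j hj0 hjp) hp0.le) ?_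
          refine mul_le_mul (by exact_mod_cast hjp.le) ?_ (norm_nonneg _) hp0.le
          refine ((key N hN).1 j).trans (mul_le_mul_of_nonneg_left ?_ hD0.le)
          have hN1 : (1 : ℝ) ≤ N := by exact_mod_cast hN
          nlinarith
        rw [← h5] at h6
        have h7 : (N : ℝ) * ‖Bf (rt N) p j (N - 1)‖ ≤ N * (c2 * Real.sqrt N) := by
          rw [hc2]
          linarith
        have h8 := le_of_mul_le_mul_left h7 hN0
        refine h8.trans (mul_le_mul_of_nonneg_right ?_ (Real.sqrt_nonneg _))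
        linarith
      · have : j = p := le_antisymm hj hjp
        subst this
        refine (hBp N hN).trans ?_
        nlinarith
  -- the lower bound
  obtain ⟨c4, hc4⟩ : ∃ c4 : ℝ, c4 = D * (Real.pi * p ^ 2) / 2 + p * |C| + p ^ 2 * D := ⟨_, rfl⟩
  have hc40 : 0 < c4 := by
    have := Real.pi_pos
    rw [hc4]
    positivity
  refine ⟨D / 4, max (c2 + c3) c3, by positivity, ⌈(4 * c4 / D) ^ 2⌉₊ + 1, ?_⟩
  intro N hN
  have hN1 : 1 ≤ N := by omega
  have hN0 : (0 : ℝ) < N := by exact_mod_cast hN1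
  have hN1' : (1 : ℝ) ≤ N := by exact_mod_cast hN1
  have hs1 : 1 ≤ Real.sqrt N := by
    rw [Real.one_le_sqrt]
    exact hN1'
  refine ⟨fun j hj => (hB N hN1 j hj).trans
    (mul_le_mul_of_nonneg_right (le_max_left _ _) (Real.sqrt_nonneg _)),
    (hBp N hN1).trans (le_max_right _ _), ?_⟩
  have hbig : 4 * c4 / D ≤ Real.sqrt N := by
    apply Real.le_sqrt_of_sq_le
    have h4 := Nat.le_ceil ((4 * c4 / D) ^ 2)
    have h5 : ((⌈(4 * c4 / D) ^ 2⌉₊ : ℕ) : ℝ) ≤ N := by
      have : ⌈(4 * c4 / D) ^ 2⌉₊ ≤ N := by omega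
      exact_mod_cast this
    exact h4.trans h5
  have hbig2 : c4 ≤ D / 4 * Real.sqrt N := by
    rw [div_le_iff₀ hD0] at hbig
    linarith
  -- rewrite the sum
  obtain ⟨K, hK⟩ : ∃ K : ℂ, K = ∑ j ∈ Ico 1 p,
    (Real.sin (Real.pi * ((p - 1 : ℕ) : ℝ) * j / p) : ℂ) * AA N p j := ⟨_, rfl⟩
  obtain ⟨L, hL⟩ : ∃ L : ℂ, L = ∑ j ∈ Ico 1 p,
    (Real.sin (Real.pi * ((p - 1 : ℕ) : ℝ) * j / p) : ℂ) * (j * GZ N p (j : ℤ)) := ⟨_, rfl⟩
  obtain ⟨S, hS⟩ : ∃ S : ℂ, S = ∑ j ∈ range p, (-1) ^ j * (Real.sin (j * Real.pi / p) : ℂ)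
      * Bf (rt N) p j (N - 1) := ⟨_, rfl⟩
  rw [← hS]
  have hsin : ∀ j : ℕ, ((-1 : ℂ)) ^ j * (Real.sin (j * Real.pi / p) : ℂ)
      = -(Real.sin (Real.pi * ((p - 1 : ℕ) : ℝ) * j / p) : ℂ) := by
    intro j
    have h4 : Real.pi * ((p - 1 : ℕ) : ℝ) * j / p = j * Real.pi - j * Real.pi / p := by
      rw [Nat.cast_sub hp1]
      field_simp
      push_cast
      ring
    rw [h4, Real.sin_sub, Real.sin_nat_mul_pi, Real.cos_nat_mul_pi]
    push_cast
    ring
  have hNS : (N : ℂ) * S = L - p * K := by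
    rw [hS, hK, hL, Finset.mul_sum, Finset.mul_sum, ← Finset.sum_sub_distrib,
      Finset.range_eq_Ico, Finset.sum_eq_sum_Ico_succ_bot (by omega : 0 < p)]
    have h4 : (N : ℂ) * ((-1) ^ 0 * (Real.sin (((0 : ℕ) : ℝ) * Real.pi / p) : ℂ)
      * Bf (rt N) p 0 (N - 1)) = 0 := by simp [Bf]
    rw [h4, zero_add, zero_add]
    refine Finset.sum_congr rfl ?_
    intro j _
    rw [hsin j]
    have h5 := h1 N p j hN1
    calc (N : ℂ) * (-(Real.sin (Real.pi * ((p - 1 : ℕ) : ℝ) * j / p) : ℂ)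
          * Bf (rt N) p j (N - 1))
        = -(Real.sin (Real.pi * ((p - 1 : ℕ) : ℝ) * j / p) : ℂ)
          * ((N : ℂ) * Bf (rt N) p j (N - 1)) := by ring
      _ = _ := by rw [h5]; ring
  have hLn : ‖L‖ ≤ p ^ 2 * D * Real.sqrt N := by
    rw [hL]
    refine (norm_sum_le _ _).trans ?_
    have h4 : ∀ j ∈ Ico 1 p, ‖(Real.sin (Real.pi * ((p - 1 : ℕ) : ℝ) * j / p) : ℂ)
        * (j * GZ N p (j : ℤ))‖ ≤ p * (D * Real.sqrt N) := by
      intro j hj
      rw [Finset.mem_Ico] at hj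
      rw [norm_mul, norm_mul, Complex.norm_natCast]
      calc _ ≤ 1 * ((p : ℝ) * (D * Real.sqrt N)) := by
            refine mul_le_mul (norm_ofReal_sin_le _) ?_ (by positivity) zero_le_one
            exact mul_le_mul (by exact_mod_cast hj.2.le) ((key N hN1).1 j) (norm_nonneg _) hp0.le
        _ = p * (D * Real.sqrt N) := one_mul _
    refine (Finset.sum_le_sum h4).trans ?_
    rw [Finset.sum_const, Nat.card_Ico, nsmul_eq_mul]
    have h5 : ((p - 1 : ℕ) : ℝ) ≤ p := by exact_mod_cast Nat.sub_le p 1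
    calc ((p - 1 : ℕ) : ℝ) * (p * (D * Real.sqrt N)) ≤ p * (p * (D * Real.sqrt N)) :=
          mul_le_mul_of_nonneg_right h5 (by positivity)
      _ = p ^ 2 * D * Real.sqrt N := by ring
  -- the lower bound of K
  have hKlow : N * (D * Real.sqrt N * (1 - Real.pi * p ^ 2 / N)) / (2 * p) - |C| * N ≤ ‖K‖ := by
    have h4 := (hC N hN1).2 (p - 1) (by omega) (by omega)
    rw [← hK] at h4
    have h5 := R_lower h2 N p hN1 hp1 ((p - 1 : ℕ) : ℤ)
    have h6 : Real.sqrt (2 * p * N) = D * Real.sqrt N := by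
      rw [hD, ← Real.sqrt_mul (by positivity)]
    rw [h6] at h5
    obtain ⟨R, hR⟩ : ∃ R : ℂ, R = ∑ j ∈ range (2 * p),
      (Real.cos (Real.pi * ((p - 1 : ℕ) : ℝ) * ((j : ℝ) - p + 1) / p) : ℂ)
        * GZ N p ((j : ℤ) - p + 1) := ⟨_, rfl⟩
    rw [Int.cast_natCast, ← hR] at h5
    rw [← hR] at h4
    have h7 : ‖Complex.I * N * (((p : ℂ) - ((p - 1 : ℕ) : ℂ)) / (2 * p)) * R‖
        = N * ‖R‖ / (2 * p) := by
      have h8 : ((p : ℂ) - ((p - 1 : ℕ) : ℂ)) = 1 := by
        rw [Nat.cast_sub hp1]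
        push_cast
        ring
      rw [h8, norm_mul, norm_mul, norm_mul, Complex.norm_I, one_mul, Complex.norm_natCast,
        norm_div, norm_mul, Complex.norm_natCast, norm_one]
      norm_num
      ring
    have h9 := norm_sub_norm_le (Complex.I * N * (((p : ℂ) - ((p - 1 : ℕ) : ℂ)) / (2 * p)) * R) K
    rw [norm_sub_rev, h7] at h9
    have h10 : N * (D * Real.sqrt N * (1 - Real.pi * p ^ 2 / N)) / (2 * p)
        ≤ N * ‖R‖ / (2 * p) := by
      apply div_le_div_of_nonneg_right _ (by positivity)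
      exact mul_le_mul_of_nonneg_left h5 hN0.le
    have h11 : C * N ≤ |C| * N := mul_le_mul_of_nonneg_right (le_abs_self C) hN0.le
    linarith
  have hfin : (N : ℝ) * ‖S‖ ≥ p * ‖K‖ - ‖L‖ := by
    have h4 : (N : ℝ) * ‖S‖ = ‖L - p * K‖ := by
      rw [← hNS, norm_mul, Complex.norm_natCast]
    rw [h4]
    have h5 := norm_sub_norm_le ((p : ℂ) * K) L
    rw [norm_sub_rev, norm_mul, Complex.norm_natCast] at h5
    exact h5
  have hmul : N * (D / 4 * Real.sqrt N) ≤ N * ‖S‖ := by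
    have h4 : (p : ℝ) * (N * (D * Real.sqrt N * (1 - Real.pi * p ^ 2 / N)) / (2 * p) - |C| * N)
        ≤ p * ‖K‖ := mul_le_mul_of_nonneg_left hKlow hp0.le
    have h5 : (p : ℝ) * (N * (D * Real.sqrt N * (1 - Real.pi * p ^ 2 / N)) / (2 * p) - |C| * N)
        = N * (D / 2 * Real.sqrt N) - D * (Real.pi * p ^ 2) / 2 * Real.sqrt N - p * |C| * N := by
      field_simp
    have hsN : Real.sqrt N ≤ N := by
      rw [Real.sqrt_le_left hN0.le]
      nlinarith
    have h6 : D * (Real.pi * p ^ 2) / 2 * Real.sqrt N ≤ D * (Real.pi * p ^ 2) / 2 * N :=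
      mul_le_mul_of_nonneg_left hsN (by have := Real.pi_pos; positivity)
    have h7 : p ^ 2 * D * Real.sqrt N ≤ p ^ 2 * D * N :=
      mul_le_mul_of_nonneg_left hsN (by positivity)
    have h8 : N * c4 ≤ N * (D / 4 * Real.sqrt N) := mul_le_mul_of_nonneg_left hbig2 hN0.le
    have h9 : N * c4 = D * (Real.pi * p ^ 2) / 2 * N + p * |C| * N + p ^ 2 * D * N := by
      rw [hc4]
      ring
    have h10 : N * (D / 2 * Real.sqrt N) = 2 * (N * (D / 4 * Real.sqrt N)) := by ring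
    linarith
  exact le_of_mul_le_mul_left hmul hN0

end Pool.Agent.Q178.VC
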