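import Pool.Agent.Q167.VC.Stm

/-!
# JOB GSS, part A: periodicity and evenness of the Gauss sums, orthogonality of the sines
-/

set_option autoImplicit false

open Finset

namespace Pool.Agent.Q178.VC

open Pool.Agent.Q167.VC

/-- shift of a sum over a full period -/
theorem sum_shift (f : ℤ → ℂ) (T : ℕ) (hf : ∀ y, f (y + T) = f y) (a : ℤ) :
    ∑ j ∈ range T, f (a + j) = ∑ j ∈ range T, f j := by
  have key : ∀ b : ℤ, ∑ j ∈ range T, f (b + 1 + j) = ∑ j ∈ range T, f (b + j) := by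
    intro b
    have h1 := Finset.sum_range_succ (fun j : ℕ => f (b + j)) T
    have h2 := Finset.sum_range_succ' (fun j : ℕ => f (b + j)) T
    rw [h1, hf b] at h2
    have h3 : ∀ j : ℕ, f (b + ((j + 1 : ℕ) : ℤ)) = f (b + 1 + j) := by
      intro j
      congr 1
      push_cast
      ring
    simp only [h3, Nat.cast_zero, add_zero] at h2
    exact (add_right_cancel h2).symm
  induction a using Int.induction_on with
  | zero => simp
  | succ n ih => rw [key]; exact ih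
  | pred n ih =>
    rw [← ih, ← key (-(n : ℤ) - 1)]
    simp

theorem sum_reflect (f : ℤ → ℂ) (T : ℕ) (hf : ∀ y, f (y + T) = f y) :
    ∑ j ∈ range T, f (-(j : ℤ)) = ∑ j ∈ range T, f j := by
  rw [← Finset.sum_range_reflect, ← sum_shift f T hf (-(T : ℤ) + 1)]
  refine Finset.sum_congr rfl ?_
  intro j hj
  rw [Finset.mem_range] at hj
  congr 1
  rw [Nat.cast_sub (by omega), Nat.cast_sub (by omega)]
  push_cast
  ring

theorem rt_ne (N : ℕ) : rt N ≠ 0 := Complex.exp_ne_zero _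

theorem rt_two (N : ℕ) (hN : 1 ≤ N) : rt N ^ (2 * (N : ℤ)) = 1 := by
  have hN0 : (N : ℂ) ≠ 0 := by
    have : N ≠ 0 := by omega
    exact_mod_cast this
  unfold rt
  rw [← Complex.exp_int_mul]
  push_cast
  rw [show 2 * (N : ℂ) * (Real.pi * Complex.I / N) = 2 * Real.pi * Complex.I by field_simp]
  exact Complex.exp_two_pi_mul_I

theorem rt_per (N : ℕ) (hN : 1 ≤ N) (a b m : ℤ) (h : a = b + 2 * (N : ℤ) * m) :
    rt N ^ a = rt N ^ b := by
  rw [h, zpow_add₀ (rt_ne N), zpow_mul, rt_two N hN, one_zpow, mul_one]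

/-- the terms of the Gauss sum -/
noncomputable def FF (N p : ℕ) (y k : ℤ) : ℂ := rt N ^ (2 * (p : ℤ) * (k * (k + 1)) + y * (2 * k + 1))

theorem GZ_eq (N p : ℕ) (y : ℤ) : GZ N p y = ∑ k ∈ range N, FF N p y k := rfl

theorem FF_per (N p : ℕ) (hN : 1 ≤ N) (y k : ℤ) : FF N p y (k + N) = FF N p y k := by
  refine rt_per N hN _ _ ((p : ℤ) * (2 * k + N + 1) + y) ?_
  ring

theorem GZ_per (N p : ℕ) (hN : 1 ≤ N) (y : ℤ) :
    GZ N p (y + ((2 * p : ℕ) : ℤ)) = rt N ^ (-(2 * (p : ℤ) + 2 * y)) * GZ N p y := by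
  rw [GZ_eq, GZ_eq, ← sum_shift (FF N p y) N (FF_per N p hN y) 1, Finset.mul_sum]
  refine Finset.sum_congr rfl ?_
  intro k _
  unfold FF
  rw [← zpow_add₀ (rt_ne N)]
  congr 1
  push_cast
  ring

theorem GZ_even (N p : ℕ) (hN : 1 ≤ N) (y : ℤ) : GZ N p (-y) = GZ N p y := by
  rw [GZ_eq, GZ_eq, ← Finset.sum_range_reflect]
  refine Finset.sum_congr rfl ?_
  intro k hk
  rw [Finset.mem_range] at hk
  refine rt_per N hN _ _ ((p : ℤ) * (N - (2 * k + 1)) - y) ?_
  rw [Nat.cast_sub (by omega), Nat.cast_sub (by omega)]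
  push_cast
  ring

/-- the corrected Gauss sum -/
noncomputable def GG (N p : ℕ) (y : ℤ) : ℂ :=
  GZ N p y * Complex.exp (2 * Real.pi * Complex.I * ((y : ℂ) ^ 2 / (4 * p * N)))

theorem GG_per (N p : ℕ) (hN : 1 ≤ N) (hp : 1 ≤ p) (y : ℤ) :
    GG N p (y + ((2 * p : ℕ) : ℤ)) = GG N p y := by
  have hN0 : (N : ℂ) ≠ 0 := by
    have : N ≠ 0 := by omega
    exact_mod_cast this
  have hp0 : (p : ℂ) ≠ 0 := by
    have : p ≠ 0 := by omega
    exact_mod_cast this
  unfold GG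
  rw [GZ_per N p hN y]
  have h1 : rt N ^ (-(2 * (p : ℤ) + 2 * y))
      = Complex.exp (-(2 * Real.pi * Complex.I * (((p : ℂ) + y) / N))) := by
    unfold rt
    rw [← Complex.exp_int_mul]
    congr 1
    push_cast
    field_simp
  rw [h1, mul_comm (Complex.exp _) (GZ N p y), mul_assoc, ← Complex.exp_add]
  congr 2
  push_cast
  field_simp
  ring

theorem GG_even (N p : ℕ) (hN : 1 ≤ N) (y : ℤ) : GG N p (-y) = GG N p y := by
  unfold GG
  rw [GZ_even N p hN y]
  push_cast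
  rw [neg_sq]

theorem GG_norm (N p : ℕ) (y : ℤ) : ‖GG N p y‖ = ‖GZ N p y‖ := by
  unfold GG
  rw [norm_mul]
  have h1 : (2 * Real.pi * Complex.I * ((y : ℂ) ^ 2 / (4 * p * N)) : ℂ)
      = ((2 * Real.pi * ((y : ℝ) ^ 2 / (4 * p * N)) : ℝ) : ℂ) * Complex.I := by
    push_cast
    ring
  rw [h1, Complex.norm_exp_ofReal_mul_I, mul_one]

theorem GG_sub (N p : ℕ) (y : ℤ) :
    ‖GG N p y - GZ N p y‖ ≤ ‖GZ N p y‖ * (2 * Real.pi * ((y : ℝ) ^ 2 / (4 * p * N))) := by
  unfold GG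
  have h1 : (2 * Real.pi * Complex.I * ((y : ℂ) ^ 2 / (4 * p * N)) : ℂ)
      = Complex.I * ((2 * Real.pi * ((y : ℝ) ^ 2 / (4 * p * N)) : ℝ) : ℂ) := by
    push_cast
    ring
  rw [show GZ N p y * Complex.exp (2 * Real.pi * Complex.I * ((y : ℂ) ^ 2 / (4 * p * N))) - GZ N p y
    = GZ N p y * (Complex.exp (2 * Real.pi * Complex.I * ((y : ℂ) ^ 2 / (4 * p * N))) - 1) by ring,
    norm_mul, h1]
  refine mul_le_mul_of_nonneg_left ?_ (norm_nonneg _)
  refine (Real.norm_exp_I_mul_ofReal_sub_one_le).trans ?_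
  rw [Real.norm_eq_abs, abs_of_nonneg]
  have := Real.pi_pos
  positivity

/-- cosine sum -/
theorem cos_sum_aux (θ : ℝ) (n : ℕ) (hn : 1 ≤ n) :
    2 * Real.sin θ * ∑ m ∈ Ico 1 n, Real.cos (2 * θ * m)
      = Real.sin ((2 * n - 1) * θ) - Real.sin θ := by
  induction n, hn using Nat.le_induction with
  | base => simp; ring_nf
  | succ n hn ih =>
    rw [Finset.sum_Ico_succ_top hn, mul_add, ih]
    have h1 : Real.sin ((2 * ((n + 1 : ℕ) : ℝ) - 1) * θ)
        = Real.sin (2 * θ * n) * Real.cos θ + Real.cos (2 * θ * n) * Real.sin θ := by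
      rw [← Real.sin_add]
      congr 1
      push_cast
      ring
    have h2 : Real.sin ((2 * (n : ℝ) - 1) * θ)
        = Real.sin (2 * θ * n) * Real.cos θ - Real.cos (2 * θ * n) * Real.sin θ := by
      rw [← Real.sin_sub]
      congr 1
      ring
    rw [h1, h2]
    ring

theorem cos_sum (p : ℕ) (hp : 1 ≤ p) (l : ℤ) (hl : ¬ ((2 * p : ℕ) : ℤ) ∣ l) :
    ∑ m ∈ Ico 1 p, Real.cos (Real.pi * l * m / p) = -(1 + Real.cos (Real.pi * l)) / 2 := by
  have hp0 : (p : ℝ) ≠ 0 := by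
    have : p ≠ 0 := by omega
    exact_mod_cast this
  have h1 := cos_sum_aux (Real.pi * l / (2 * p)) p hp
  have h2 : ∀ m : ℕ, 2 * (Real.pi * l / (2 * p)) * (m : ℝ) = Real.pi * l * m / p := by
    intro m
    field_simp
  simp only [h2] at h1
  have h3 : (2 * (p : ℝ) - 1) * (Real.pi * l / (2 * p)) = l * Real.pi - Real.pi * l / (2 * p) := by
    field_simp
  rw [h3, Real.sin_sub, Real.sin_int_mul_pi, zero_mul, zero_sub] at h1
  have h4 : Real.sin (Real.pi * l / (2 * p)) ≠ 0 := by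
    intro h5
    rw [Real.sin_eq_zero_iff] at h5
    obtain ⟨n, hn⟩ := h5
    apply hl
    refine ⟨n, ?_⟩
    have h6 : (l : ℝ) = 2 * p * n := by
      have hpi := Real.pi_pos.ne'
      field_simp at hn
      linarith
    exact_mod_cast h6
  have h5 : Real.sin (Real.pi * l / (2 * p)) *
      (2 * ∑ m ∈ Ico 1 p, Real.cos (Real.pi * l * m / p) + (1 + Real.cos (Real.pi * l))) = 0 := by
    rw [mul_comm Real.pi (l : ℝ)] at h1 ⊢
    linarith
  rcases mul_eq_zero.mp h5 with h6 | h6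
  · exact absurd h6 h4
  · linarith

theorem sin_orth (p : ℕ) (hp : 1 ≤ p) (j k : ℕ) (hj : 1 ≤ j) (hj2 : j < p) (hk : 1 ≤ k)
    (hk2 : k < p) :
    ∑ m ∈ Ico 1 p, Real.sin (Real.pi * m * j / p) * Real.sin (Real.pi * m * k / p)
      = if j = k then (p : ℝ) / 2 else 0 := by
  have h1 : ∀ m : ℕ, Real.sin (Real.pi * m * j / p) * Real.sin (Real.pi * m * k / p)
      = (Real.cos (Real.pi * ((j : ℤ) - k : ℤ) * m / p)
        - Real.cos (Real.pi * ((j : ℤ) + k : ℤ) * m / p)) / 2 := by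
    intro m
    have ha : Real.pi * ((j : ℤ) - k : ℤ) * m / p
        = Real.pi * m * j / p - Real.pi * m * k / p := by push_cast; ring
    have hb : Real.pi * ((j : ℤ) + k : ℤ) * m / p
        = Real.pi * m * j / p + Real.pi * m * k / p := by push_cast; ring
    rw [ha, hb, Real.cos_sub, Real.cos_add]
    ring
  simp only [h1]
  rw [← Finset.sum_div, Finset.sum_sub_distrib]
  have h2 : ¬ ((2 * p : ℕ) : ℤ) ∣ (j : ℤ) + k := by
    intro h
    have := Int.le_of_dvd (by omega) h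
    push_cast at this
    omega
  rw [cos_sum p hp _ h2]
  by_cases hjk : j = k
  · subst hjk
    rw [if_pos rfl]
    have h3 : ∀ m : ℕ, Real.cos (Real.pi * ((j : ℤ) - j : ℤ) * m / p) = 1 := by
      intro m
      simp
    simp only [h3]
    have h4 : Real.cos (Real.pi * (((j : ℤ) + j : ℤ) : ℝ)) = 1 := by
      have := Real.cos_int_mul_two_pi j
      rw [← this]
      congr 1
      push_cast
      ring
    rw [h4]
    simp only [Finset.sum_const, Nat.card_Ico, nsmul_eq_mul, mul_one]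
    rw [Nat.cast_sub hp]
    push_cast
    ring
  · rw [if_neg hjk]
    have h3 : ¬ ((2 * p : ℕ) : ℤ) ∣ (j : ℤ) - k := by
      intro h
      have := Int.eq_zero_of_abs_lt_dvd h (by
        rw [abs_lt]
        push_cast
        constructor <;> omega)
      omega
    rw [cos_sum p hp _ h3]
    have h4 : Real.cos (Real.pi * (((j : ℤ) + k : ℤ) : ℝ))
        = Real.cos (Real.pi * (((j : ℤ) - k : ℤ) : ℝ)) := by
      have := Real.cos_add_int_mul_two_pi (Real.pi * (((j : ℤ) - k : ℤ) : ℝ)) k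
      rw [← this]
      congr 1
      push_cast
      ring
    rw [h4]
    ring

end Pool.Agent.Q178.VC
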