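import Pool.Agent.Q178.VC.GaussA

/-!
# JOB GSS, part B: the size of the vector at the resonance
-/

set_option autoImplicit false

open Finset

namespace Pool.Agent.Q178.VC

open Pool.Agent.Q167.VC

/-- lower bound for the cosine combination of the Gauss sums -/
theorem R_lower (h2 : S_gauss) (N p : ℕ) (hN : 1 ≤ N) (hp : 1 ≤ p) (m : ℤ) :
    Real.sqrt (2 * p * N) * (1 - Real.pi * p ^ 2 / N)
      ≤ ‖∑ j ∈ range (2 * p), (Real.cos (Real.pi * m * ((j : ℝ) - p + 1) / p) : ℂ)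
            * GZ N p ((j : ℤ) - p + 1)‖ := by
  have hN0 : (0 : ℝ) < N := by exact_mod_cast hN
  have hp0 : (0 : ℝ) < p := by exact_mod_cast hp
  have hpC : (p : ℂ) ≠ 0 := by exact_mod_cast hp0.ne'
  have hNC : (N : ℂ) ≠ 0 := by exact_mod_cast hN0.ne'
  obtain ⟨hg1, hg2⟩ := h2 N p hN hp
  have hG : ∀ y : ℤ, ‖GZ N p y‖ ≤ Real.sqrt (2 * p * N) := fun y =>
    Real.le_sqrt_of_sq_le (hg2 y)
  -- the periodic function
  set c : ℤ → ℂ := fun y => (Real.cos (Real.pi * m * (y : ℝ) / p) : ℂ) with hc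
  set e : ℤ → ℤ → ℂ := fun n y =>
    GG N p y * Complex.exp (-(2 * Real.pi * Complex.I * ((n : ℂ) * y / (2 * p)))) with he
  have heper : ∀ n y, e n (y + ((2 * p : ℕ) : ℤ)) = e n y := by
    intro n y
    simp only [he]
    rw [GG_per N p hN hp]
    congr 1
    have h1 : -(2 * Real.pi * Complex.I * ((n : ℂ) * ((y + ((2 * p : ℕ) : ℤ) : ℤ) : ℂ) / (2 * p)))
        = -(2 * Real.pi * Complex.I * ((n : ℂ) * y / (2 * p))) + (-n : ℤ) * (2 * Real.pi * Complex.I) := by
      push_cast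
      field_simp
      ring
    rw [h1, Complex.exp_add, Complex.exp_int_mul_two_pi_mul_I, mul_one]
  have hce : ∀ y, c y * GG N p y = (e m y + e m (-y)) / 2 := by
    intro y
    simp only [hc, he]
    rw [GG_even N p hN, Complex.ofReal_cos, Complex.cos]
    have h1 : ((Real.pi * m * (y : ℝ) / p : ℝ) : ℂ) * Complex.I
        = -(2 * Real.pi * Complex.I * ((m : ℂ) * ((-y : ℤ) : ℂ) / (2 * p))) := by
      push_cast
      field_simp
    have h3 : -((Real.pi * m * (y : ℝ) / p : ℝ) : ℂ) * Complex.I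
        = -(2 * Real.pi * Complex.I * ((m : ℂ) * y / (2 * p))) := by
      push_cast
      field_simp
    rw [h1, h3]
    ring
  have hcper : ∀ y, c (y + ((2 * p : ℕ) : ℤ)) * GG N p (y + ((2 * p : ℕ) : ℤ)) = c y * GG N p y := by
    intro y
    rw [hce, hce, heper]
    have := heper m (-(y + ((2 * p : ℕ) : ℤ)))
    rw [← this]
    congr 3
    ring
  have hsum : ∑ j ∈ range (2 * p), c ((j : ℤ) - p + 1) * GG N p ((j : ℤ) - p + 1)
      = ∑ j ∈ range (2 * p), e m j := by
    have h4 := sum_shift (fun y => c y * GG N p y) (2 * p) hcper (-(p : ℤ) + 1)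
    have h5 : ∀ j : ℕ, (-(p : ℤ) + 1 + j) = (j : ℤ) - p + 1 := fun j => by ring
    simp only [h5] at h4
    rw [h4]
    simp only [hce]
    rw [← Finset.sum_div, Finset.sum_add_distrib, sum_reflect (e m) (2 * p) (heper m)]
    ring
  have hnorm : ‖∑ j ∈ range (2 * p), e m j‖ = Real.sqrt (2 * p * N) := by
    have h6 : ∑ j ∈ range (2 * p), e m j = ∑ y ∈ range (2 * p), GZ N p y
      * Complex.exp (2 * Real.pi * Complex.I
          * ((y : ℂ) ^ 2 / (4 * p * N) - (m : ℂ) * y / (2 * p))) := by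
      refine Finset.sum_congr rfl ?_
      intro y _
      simp only [he, GG]
      rw [mul_assoc, ← Complex.exp_add]
      congr 2
      push_cast
      ring
    rw [h6, ← Real.sqrt_sq (norm_nonneg _), hg1 m]
  have hdiff : ‖∑ j ∈ range (2 * p), c ((j : ℤ) - p + 1) * GG N p ((j : ℤ) - p + 1)
      - ∑ j ∈ range (2 * p), (Real.cos (Real.pi * m * ((j : ℝ) - p + 1) / p) : ℂ)
            * GZ N p ((j : ℤ) - p + 1)‖ ≤ Real.sqrt (2 * p * N) * (Real.pi * p ^ 2 / N) := by
    rw [← Finset.sum_sub_distrib]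
    refine (norm_sum_le _ _).trans ?_
    have h7 : ∀ j ∈ range (2 * p), ‖c ((j : ℤ) - p + 1) * GG N p ((j : ℤ) - p + 1)
        - (Real.cos (Real.pi * m * ((j : ℝ) - p + 1) / p) : ℂ) * GZ N p ((j : ℤ) - p + 1)‖
        ≤ Real.sqrt (2 * p * N) * (Real.pi * p / (2 * N)) := by
      intro j hj
      rw [Finset.mem_range] at hj
      have h8 : c ((j : ℤ) - p + 1) = (Real.cos (Real.pi * m * ((j : ℝ) - p + 1) / p) : ℂ) := by
        simp only [hc]
        push_cast
        rfl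
      rw [h8, ← mul_sub, norm_mul]
      have h9 : ‖(Real.cos (Real.pi * m * ((j : ℝ) - p + 1) / p) : ℂ)‖ ≤ 1 := by
        rw [Complex.norm_real, Real.norm_eq_abs]
        exact Real.abs_cos_le_one _
      have h10 := GG_sub N p ((j : ℤ) - p + 1)
      have h11 : ((((j : ℤ) - p + 1 : ℤ) : ℝ)) ^ 2 ≤ (p : ℝ) ^ 2 := by
        apply sq_le_sq'
        · have : -(p : ℤ) ≤ (j : ℤ) - p + 1 := by omega
          exact_mod_cast this
        · have : (j : ℤ) - p + 1 ≤ p := by omega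
          exact_mod_cast this
      have h12 : 2 * Real.pi * (((((j : ℤ) - p + 1 : ℤ) : ℝ)) ^ 2 / (4 * p * N))
          ≤ Real.pi * p / (2 * N) := by
        rw [← mul_div_assoc, div_le_div_iff₀ (by positivity) (by positivity)]
        have hpi := Real.pi_pos
        have h13 : 2 * Real.pi * ((((j : ℤ) - p + 1 : ℤ) : ℝ)) ^ 2 ≤ 2 * Real.pi * (p : ℝ) ^ 2 :=
          mul_le_mul_of_nonneg_left h11 (by positivity)
        calc 2 * Real.pi * ((((j : ℤ) - p + 1 : ℤ) : ℝ)) ^ 2 * (2 * N)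
            ≤ 2 * Real.pi * (p : ℝ) ^ 2 * (2 * N) :=
              mul_le_mul_of_nonneg_right h13 (by positivity)
          _ = Real.pi * p * (4 * p * N) := by ring
      calc ‖(Real.cos (Real.pi * m * ((j : ℝ) - p + 1) / p) : ℂ)‖
            * ‖GG N p ((j : ℤ) - p + 1) - GZ N p ((j : ℤ) - p + 1)‖
          ≤ 1 * (‖GZ N p ((j : ℤ) - p + 1)‖
              * (2 * Real.pi * (((((j : ℤ) - p + 1 : ℤ) : ℝ)) ^ 2 / (4 * p * N)))) :=
            mul_le_mul h9 h10 (norm_nonneg _) zero_le_one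
        _ ≤ Real.sqrt (2 * p * N) * (Real.pi * p / (2 * N)) := by
            rw [one_mul]
            exact mul_le_mul (hG _) h12 (by have := Real.pi_pos; positivity) (Real.sqrt_nonneg _)
    refine (Finset.sum_le_sum h7).trans ?_
    rw [Finset.sum_const, Finset.card_range, nsmul_eq_mul]
    push_cast
    apply le_of_eq
    field_simp
  rw [hsum] at hdiff
  have h20 := norm_sub_norm_le (∑ j ∈ range (2 * p), e m j)
    (∑ j ∈ range (2 * p), (Real.cos (Real.pi * m * ((j : ℝ) - p + 1) / p) : ℂ)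
            * GZ N p ((j : ℤ) - p + 1))
  rw [hnorm] at h20
  have h21 := h20.trans hdiff
  rw [mul_sub, mul_one]
  linarith

/-- inverse sine transform -/
theorem sine_inv (p : ℕ) (hp : 1 ≤ p) (A : ℕ → ℂ) (j : ℕ) (hj : 1 ≤ j) (hj2 : j < p) :
    ∑ m ∈ Ico 1 p, (Real.sin (Real.pi * m * j / p) : ℂ)
      * ∑ k ∈ Ico 1 p, (Real.sin (Real.pi * m * k / p) : ℂ) * A k = (p : ℂ) / 2 * A j := by
  simp only [Finset.mul_sum]
  rw [Finset.sum_comm]
  have h1 : ∀ k ∈ Ico 1 p, ∑ m ∈ Ico 1 p, (Real.sin (Real.pi * m * j / p) : ℂ)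
      * ((Real.sin (Real.pi * m * k / p) : ℂ) * A k)
      = ((if j = k then (p : ℝ) / 2 else 0 : ℝ) : ℂ) * A k := by
    intro k hk
    rw [Finset.mem_Ico] at hk
    rw [← sin_orth p hp j k hj hj2 hk.1 hk.2, Complex.ofReal_sum, Finset.sum_mul]
    refine Finset.sum_congr rfl ?_
    intro m _
    push_cast
    ring
  rw [Finset.sum_congr rfl h1]
  rw [Finset.sum_eq_single j]
  · rw [if_pos rfl]
    push_cast
    rfl
  · intro k _ hk
    rw [if_neg (Ne.symm hk)]
    simp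
  · intro h
    exact absurd (Finset.mem_Ico.mpr ⟨hj, hj2⟩) h

end Pool.Agent.Q178.VC
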